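import Pool.Agent.helper12.PFS.Spec

/-!
# Almost perfect starters (MP_16a903_co): the starter of an extension
-/

set_option autoImplicit false

namespace Pool.Agent.PFS

theorem STG_em_zero {p : ℕ} {G Q V : Type} [Group G] [Group Q] [AddCommGroup V] [Module (ZMod p) V]
    (D : Ext p G Q V) : D.em 0 = 1 := by
  have h := D.em_add 0 0
  rw [add_zero] at h
  exact (mul_eq_left.mp h.symm)

theorem STG_em_neg {p : ℕ} {G Q V : Type} [Group G] [Group Q] [AddCommGroup V] [Module (ZMod p) V]
    (D : Ext p G Q V) (u : V) : D.em (-u) = (D.em u)⁻¹ := by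
  have h := D.em_add (-u) u
  rw [neg_add_cancel, STG_em_zero] at h
  exact eq_inv_of_mul_eq_one_left h.symm

theorem STG_em_sub {p : ℕ} {G Q V : Type} [Group G] [Group Q] [AddCommGroup V] [Module (ZMod p) V]
    (D : Ext p G Q V) (u v : V) : D.em (u - v) = D.em u * (D.em v)⁻¹ := by
  rw [sub_eq_add_neg, D.em_add, STG_em_neg]

theorem STG_chi_add {p : ℕ} {G Q V : Type} [Group G] [Group Q] [AddCommGroup V] [Module (ZMod p) V]
    (D : Ext p G Q V) (d : G) (u v : V) : D.chi d (u + v) = D.chi d u + D.chi d v := by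
  apply D.em_inj
  rw [D.em_add, ← D.conj, ← D.conj, ← D.conj, D.em_add]
  group

theorem STG_chi_one {p : ℕ} {G Q V : Type} [Group G] [Group Q] [AddCommGroup V] [Module (ZMod p) V]
    (D : Ext p G Q V) (u : V) : D.chi 1 u = u := by
  apply D.em_inj
  rw [← D.conj, one_mul, inv_one, mul_one]

theorem STG_chi_mul {p : ℕ} {G Q V : Type} [Group G] [Group Q] [AddCommGroup V] [Module (ZMod p) V]
    (D : Ext p G Q V) (a b : G) (u : V) : D.chi (a * b) u = D.chi a (D.chi b u) := by
  apply D.em_inj
  rw [← D.conj, ← D.conj, ← D.conj]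
  group

/-- the additive map `chi d` -/
def STG_chi {p : ℕ} {G Q V : Type} [Group G] [Group Q] [AddCommGroup V] [Module (ZMod p) V]
    (D : Ext p G Q V) (d : G) : V →+ V := AddMonoidHom.mk' (D.chi d) (STG_chi_add D d)

theorem STG_chi_apply {p : ℕ} {G Q V : Type} [Group G] [Group Q] [AddCommGroup V] [Module (ZMod p) V]
    (D : Ext p G Q V) (d : G) (u : V) : STG_chi D d u = D.chi d u := rfl

theorem STG_chi_smul {p : ℕ} {G Q V : Type} [Group G] [Group Q] [AddCommGroup V] [Module (ZMod p) V]
    (D : Ext p G Q V) (d : G) (a : ZMod p) (u : V) : D.chi d (a • u) = a • D.chi d u := by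
  have h := ZMod.map_smul (STG_chi D d) a u
  exact h

theorem STG_iter {p : ℕ} {G Q V : Type} [Group G] [Group Q] [AddCommGroup V] [Module (ZMod p) V]
    (D : Ext p G Q V) (d : G) (a : ZMod p) (w : V) (hw : w = a • D.chi d w) (n : ℕ) :
    w = a ^ n • D.chi (d ^ n) w := by
  induction n with
  | zero => rw [pow_zero, pow_zero, STG_chi_one, one_smul]
  | succ n ih =>
    have h1 : a ^ (n + 1) • D.chi (d ^ (n + 1)) w = a • D.chi d (a ^ n • D.chi (d ^ n) w) := by
      rw [STG_chi_smul, ← STG_chi_mul, ← pow_succ', smul_smul, ← pow_succ']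
    rw [h1, ← ih]
    exact hw

theorem STG_inj {p : ℕ} [Fact p.Prime] {G Q V : Type} [Group G] [Finite G] [Group Q] [AddCommGroup V]
    [Module (ZMod p) V] (D : Ext p G Q V) (hodd : Odd (Nat.card G)) (d : G) (a : ZMod p) (ha : ¬ IsSquare a)
    (w : V) (hw : w = a • D.chi d w) : w = 0 := by
  by_contra hne
  have h1 := STG_iter D d a w hw (Nat.card G)
  rw [pow_card_eq_one', STG_chi_one] at h1
  have h2 : (a ^ Nat.card G - 1) • w = 0 := by
    rw [sub_smul, one_smul, ← h1, sub_self]
  have h3 : a ^ Nat.card G - 1 = 0 := by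
    rcases smul_eq_zero.mp h2 with h | h
    · exact h
    · exact absurd h hne
  have h4 : a ^ Nat.card G = 1 := sub_eq_zero.mp h3
  obtain ⟨j, hj⟩ := hodd
  apply ha
  refine ⟨a ^ (j + 1), ?_⟩
  have h5 : a = a ^ Nat.card G * a := by rw [h4, one_mul]
  rw [← pow_add]
  have h6 : a ^ (j + 1 + (j + 1)) = a ^ Nat.card G * a := by
    rw [hj, ← pow_succ]
    ring
  rw [h6]
  exact h5

theorem STG_surj {p : ℕ} [Fact p.Prime] {G Q V : Type} [Group G] [Finite G] [Group Q] [AddCommGroup V]
    [Module (ZMod p) V] (D : Ext p G Q V) (hodd : Odd (Nat.card G)) (d : G) (a : ZMod p) (ha : ¬ IsSquare a)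
    (k w : V) : ∃ u : V, u - D.chi d (a • u + k) = w := by
  haveI : Finite V := Finite.of_injective D.em D.em_inj
  have hinj : Function.Injective (fun u : V => u - D.chi d (a • u + k)) := by
    intro u v huv
    simp only at huv
    rw [STG_chi_add, STG_chi_add, STG_chi_smul, STG_chi_smul] at huv
    have h1 : u - v = a • D.chi d (u - v) := by
      have h2 : D.chi d (u - v) = D.chi d u - D.chi d v := map_sub (STG_chi D d) u v
      rw [h2, smul_sub]
      have h3 : u - v - (a • D.chi d u - a • D.chi d v)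
          = (u - (a • D.chi d u + D.chi d k)) - (v - (a • D.chi d v + D.chi d k)) := by abel
      rw [huv, sub_self] at h3
      exact sub_eq_zero.mp h3
    exact sub_eq_zero.mp (STG_inj D hodd d a ha (u - v) h1)
  exact (Finite.surjective_of_injective hinj) w

theorem STG_fm {p : ℕ} [Fact p.Prime] {Q V : Type} [AddCommGroup V] [Module (ZMod p) V] (f : Q → Q)
    (r : Q → Bool) (l : Q → ZMod p) (c : Q → V) (hl : ∀ x, ¬ IsSquare (l x)) (x : Q) :
    ∃ (a : ZMod p) (k : V), ¬ IsSquare a ∧ ∀ u, fm f r l c x u = a • u + k := by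
  rcases Bool.eq_false_or_eq_true (r x) with hr | hr
  · refine ⟨l x, c x, hl x, fun u => ?_⟩
    unfold fm
    rw [if_pos hr]
  · refine ⟨(l (f x))⁻¹, -((l (f x))⁻¹ • c (f x)), ?_, fun u => ?_⟩
    · rw [isSquare_inv]
      exact hl (f x)
    · unfold fm
      rw [if_neg (by rw [hr]; exact Bool.false_ne_true), smul_sub, sub_eq_add_neg]

theorem STG (h1 : LIN_stmt) : STG_stmt := by
  intro p _ G Q V _ _ _ _ _ _ D f r sV l c hodd hf hr hs hl
  have hl0 : ∀ x, l x ≠ 0 := by
    intro x h0
    apply hl x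
    rw [h0]
    exact IsSquare.zero
  have hI := h1 Q V (ZMod p) 1 f r sV l c hf.inv hr hs.inv hl0
  have hE1 : D.E (1, 0) = 1 := by
    rw [Ext.E_apply]
    simp only
    rw [STG_em_zero, D.sec_one, one_mul]
  refine ⟨⟨?_, ?_⟩, ?_⟩
  · intro g
    simp only [Equiv.symm_apply_apply]
    rw [hI.inv, Equiv.apply_symm_apply]
  · intro g
    constructor
    · intro hg
      have h2 : lft 1 f r sV l c (D.E.symm g) = D.E.symm g := by
        rw [Equiv.eq_symm_apply]
        exact hg
      have h3 := (hI.fix _).mp h2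
      rw [← hE1, ← h3, Equiv.apply_symm_apply]
    · intro hg
      have h2 : D.E.symm g = (1, 0) := by
        rw [hg, Equiv.symm_apply_eq, hE1]
      have h3 := (hI.fix (1, 0)).mpr rfl
      rw [hg]
      rw [hg] at h2
      rw [h2, h3, hE1]
  · intro h hh
    by_cases hp : D.pr h = 1
    · obtain ⟨w, hw⟩ := D.ker h hp
      have hw0 : w ≠ 0 := by
        intro h0
        apply hh
        rw [← hw, h0, STG_em_zero]
      obtain ⟨u, hu0, hu⟩ := hs.qt w hw0
      have h2 : D.E (1, u) = D.em u := by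
        rw [Ext.E_apply]
        simp only
        rw [D.sec_one, mul_one]
      have h3 : D.E (1, sV u) = D.em (sV u) := by
        rw [Ext.E_apply]
        simp only
        rw [D.sec_one, mul_one]
      refine ⟨D.E (1, u), ?_, ?_⟩
      · intro h4
        rw [← hE1] at h4
        have h5 := D.E.injective h4
        exact hu0 (congrArg Prod.snd h5)
      · have h6 : lft 1 f r sV l c (1, u) = (1, sV u) := by
          unfold lft
          simp only [if_true]
        simp only [Equiv.symm_apply_apply]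
        rw [h6, h2, h3, ← STG_em_sub, hu, hw]
    · obtain ⟨x, hx1, hx⟩ := hf.qt (D.pr h) hp
      obtain ⟨d, hd⟩ : ∃ d : G, d = D.sec x * (D.sec (f x))⁻¹ := ⟨_, rfl⟩
      obtain ⟨w, hw⟩ := D.ker (h * d⁻¹) (by
        rw [hd, map_mul, map_inv, map_mul, map_inv, D.pr_sec, D.pr_sec, hx, mul_inv_cancel])
      obtain ⟨a, k, ha, hfm⟩ := STG_fm f r l c hl x
      obtain ⟨u, hu⟩ := STG_surj D hodd d a ha k w
      rw [← hfm] at hu
      have h6 : lft 1 f r sV l c (x, u) = (f x, fm f r l c x u) := by
        unfold lft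
        simp only
        rw [if_neg hx1]
      refine ⟨D.E (x, u), ?_, ?_⟩
      · intro h4
        rw [← hE1] at h4
        have h5 := D.E.injective h4
        exact hx1 (congrArg Prod.fst h5)
      · simp only [Equiv.symm_apply_apply]
        rw [h6, Ext.E_apply, Ext.E_apply]
        simp only
        have h7 : D.em w * d = h := by
          rw [hw, inv_mul_cancel_right]
        rw [← h7, ← hu, STG_em_sub, ← D.conj, hd]
        group
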